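import Pool.Agent.H79.HC.Main
import Pool.Agent.H79.HC.Gns

/-!
# The critical Haagerup function belongs to the Fourier algebra

For every `k ≥ 2` the function `f(x) = (2k-1)^(-|x|/2)` on the free group `F_k` is a coefficient
`⟨λ(x) η, η⟩` of the left regular representation, and its GNS representation is unitarily
equivalent to the left regular representation itself. In particular `f` belongs to the Fourier
algebra, so `z f = f`, and `f` is not singular to it.
-/

set_option autoImplicit false
open scoped InnerProductSpace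

namespace Pool.Agent.Results.MP_cf2fa9_an.GNSEqualsRegular

open Pool.Agent.H79.HC

/-- The Haagerup function `f_r(x) = r ^ |x|`, where `|x|` is the length of the reduced word. -/
noncomputable def haagerup (k : ℕ) (r : ℝ) (x : FreeGroup (Fin k)) : ℂ :=
  ((r ^ x.toWord.length : ℝ) : ℂ)

/-- The critical Haagerup function `x ↦ (2k-1)^(-|x|/2)`. -/
noncomputable def crit (k : ℕ) : FreeGroup (Fin k) → ℂ :=
  haagerup k (1 / Real.sqrt (2 * (k : ℝ) - 1))

/-- The function `φ` is the coefficient `⟨λ(g) ξ, η⟩` of the left regular representation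
`(λ(g) ξ)(x) = ξ(g⁻¹ x)` on `ℓ²(G)`. -/
def IsRegularCoefficient {G : Type} [Group G] (φ : G → ℂ) (ξ η : L2 G) : Prop :=
  ∀ g, HasSum (fun x => ξ (g⁻¹ * x) * starRingEnd ℂ (η x)) (φ g)

/-- The Fourier algebra of a discrete group: the coefficient functions of the left regular
representation. -/
def FourierAlgebra (G : Type) [Group G] : Set (G → ℂ) :=
  {φ | ∃ ξ η : L2 G, IsRegularCoefficient φ ξ η}

section
variable {G H : Type} [Group G] [NormedAddCommGroup H] [InnerProductSpace ℂ H]

/-- The unitary representation `π` is unitarily equivalent to the left regular one. -/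
def EquivalentToRegular (π : G → (H ≃ₗᵢ[ℂ] H)) : Prop :=
  ∃ U : H ≃ₗᵢ[ℂ] L2 G, ∀ (g : G) (v : H) (x : G), U (π g v) x = U v (g⁻¹ * x)

/-- The subspace `K` with the action of `π` is unitarily equivalent to a subrepresentation of a
multiple of `λ`; this multiple acts on `ℓ²(I × G)` by `(g u)(i, x) = u(i, g⁻¹ x)`. -/
def EmbedsInMultiple (π : G → (H ≃ₗᵢ[ℂ] H)) (K : Submodule ℂ H) : Prop :=
  ∃ (I : Type) (T : K →ₗᵢ[ℂ] L2 (I × G)), ∀ (g : G) (v w : K), (w : H) = π g v →
    ∀ (i : I) (x : G), T w (i, x) = T v (i, g⁻¹ * x)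

end

/-- Every GNS representation of `φ` is unitarily equivalent to the left regular one. -/
def EveryGNSIsRegular {G : Type} [Group G] (φ : G → ℂ) : Prop :=
  ∀ (H : Type) [NormedAddCommGroup H] [InnerProductSpace ℂ H] [CompleteSpace H]
    (π : G → (H ≃ₗᵢ[ℂ] H)) (ξ : H), IsGNS φ π ξ → EquivalentToRegular π

/-- Singularity to the Fourier algebra, for a positive definite function `φ`: the GNS
representation `(π, ξ)` of `φ` has no nonzero closed invariant subspace `K` that is unitarily
equivalent to a subrepresentation of a multiple of `λ`. -/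
def SingularToFourier {G : Type} [Group G] (φ : G → ℂ) : Prop :=
  ∀ (H : Type) [NormedAddCommGroup H] [InnerProductSpace ℂ H] [CompleteSpace H]
    (π : G → (H ≃ₗᵢ[ℂ] H)) (ξ : H), IsGNS φ π ξ →
  ∀ K : Submodule ℂ H, IsClosed (K : Set H) → (∀ g, ∀ v ∈ K, π g v ∈ K) →
    EmbedsInMultiple π K → K = ⊥

lemma isGNS_of_main {k : ℕ} {η : L2 (F k)}
    (h1 : ∀ g : F k, ⟪lam g η, η⟫_ℂ = (((1 / Real.sqrt (2 * (k : ℝ) - 1)) ^ len g : ℝ) : ℂ))
    (h2 : (Submodule.span ℂ (Set.range fun g : F k => lam g η)).topologicalClosure = ⊤) :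
    IsGNS (crit k) (fun g => lam g) η where
  mul g h v := congrArg (fun T : L2 (F k) ≃ₗᵢ[ℂ] L2 (F k) => T v) ((lamHom (F k)).map_mul g h)
  coeff g := by
    have h3 := congrArg (starRingEnd ℂ) (h1 g)
    rw [inner_conj_symm, Complex.conj_ofReal] at h3
    exact h3
  cyclic := h2

theorem result : ∀ k : ℕ, 2 ≤ k →
    crit k ∈ FourierAlgebra (FreeGroup (Fin k)) ∧
    (∃ η, IsRegularCoefficient (crit k) η η) ∧
    EveryGNSIsRegular (crit k) ∧
    ¬ SingularToFourier (crit k) := by
  intro k hk
  obtain ⟨η, h1, h2⟩ := main hk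
  have hG := isGNS_of_main h1 h2
  have h3 : IsRegularCoefficient (crit k) η η := by
    intro g
    have h4 := lp.hasSum_inner (𝕜 := ℂ) η (lam g η)
    rw [hG.coeff g] at h4
    exact h4
  refine ⟨⟨η, η, h3⟩, ⟨η, h3⟩, ?_, ?_⟩
  · intro H _ _ _ π ξ hπ
    obtain ⟨U, hU, _⟩ := hπ.unique hG
    exact ⟨U, fun g v x => by rw [hU]; rfl⟩
  · intro hs
    have h4 := hs (L2 (F k)) (fun g => lam g) η hG ⊤ isClosed_univ
      (fun _ _ _ => Submodule.mem_top)
      ⟨Unit, (tr (Equiv.punitProd (F k)).symm).toLinearIsometry.comp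
        (⊤ : Submodule ℂ (L2 (F k))).subtypeₗᵢ, by
        intro g v w hw i x
        change (w : L2 (F k)) x = (v : L2 (F k)) (g⁻¹ * x)
        rw [hw]
        rfl⟩
    have h5 : dl (1 : F k) ∈ (⊥ : Submodule ℂ (L2 (F k))) := by
      rw [← h4]
      exact Submodule.mem_top
    rw [Submodule.mem_bot] at h5
    have h6 := congrArg (fun u : L2 (F k) => u 1) h5
    simp only [dl_apply, if_true] at h6
    exact one_ne_zero h6

end Pool.Agent.Results.MP_cf2fa9_an.GNSEqualsRegular
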